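import Pool.Agent.H27.L1.Fin2
import Pool.Agent.H27.L1.H67.GU.APU
import Pool.Agent.H27.L1.H92.GZ.AP2
import Pool.Agent.H27.L1.H17.GZ.GAU
import Pool.Agent.H27.L1.H86.GZ.GSM
import Pool.Agent.H27.L1.H4.GZ.CFB
import Pool.Agent.H27.L1.H30.GZ.COL
import Pool.Agent.H27.L1.H30.GZ.SCP
import Pool.Agent.H27.L1.H54.GZ.PWF
import Pool.Agent.H27.L1.H54.GZ.GA1
import Pool.Agent.H27.L1.H69.GZ.CL1

/-!
Level one: the bounds for the parameters of the spherical forms.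
-/

set_option autoImplicit false

namespace Pool.Agent.H27.L1.H34.GZ

theorem a_GSM : T_GSM := Pool.Agent.H27.L1.H86.GZ.pf_GSM
theorem a_CFB : T_CFB := Pool.Agent.H27.L1.H4.GZ.pf_CFB
theorem a_CL1 : T_CL1 := Pool.Agent.H27.L1.H69.GZ.pf_CL1
theorem a_COL : T_COL := Pool.Agent.H27.L1.H30.GZ.pf_COL a_GSM a_CFB a_CL1
theorem a_AP2 : T_AP2 := Pool.Agent.H27.L1.H92.GZ.pf_AP2 a_GSM a_COL
theorem a_PWF : T_PWF := Pool.Agent.H27.L1.H54.GZ.pf_PWF a_GSM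
theorem a_GA1 : T_GA1 := Pool.Agent.H27.L1.H54.GZ.pf_GA1
theorem a_SCP : T_SCP := Pool.Agent.H27.L1.H30.GZ.pf_SCP a_GSM
theorem a_GAU : T_GAU := Pool.Agent.H27.L1.H17.GZ.pf_GAU a_GSM a_PWF a_CFB a_GA1 a_COL a_SCP

end Pool.Agent.H27.L1.H34.GZ

namespace Pool.Agent.H27.L1.H34.GU

theorem b_APU : T_APU := Pool.Agent.H27.L1.H67.GU.pf_APU Pool.Agent.H27.L1.H34.GZ.g_HAR
  Pool.Agent.H27.L1.H34.GZ.a_AP2 Pool.Agent.H27.L1.H34.GZ.a_GAU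

theorem f_APU : T_APU := b_APU

end Pool.Agent.H27.L1.H34.GU
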