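import Pool.Agent.H27.L1.Fin
import Pool.Agent.H27.L1.H46.GHY.DBK
import Pool.Agent.H27.L1.H62.GHY.SPL
import Pool.Agent.H27.L1.H34.GM.PWN
import Pool.Agent.H27.L1.H34.GM.PWC
import Pool.Agent.H27.L1.H86.GMF.BMP
import Pool.Agent.H27.L1.H43.GZ.EXD

/-!
Level one: the Lipschitz constants of the spherical forms, and the existence of the systems.
-/

set_option autoImplicit false

namespace Pool.Agent.H27.L1.H55

/-- the Lipschitz constants of the spherical forms -/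
theorem c_SPL : Pool.Agent.H27.L1.H68.GHY.T_SPL :=
  Pool.Agent.H27.L1.H62.GHY.pf_SPL (Pool.Agent.H27.L1.H46.GHY.pf_DBK Pool.Agent.H27.L1.H34.GZ.g_HAR)
    Pool.Agent.H27.L1.H34.GM.pf_PRF Pool.Agent.H27.L1.H86.GMF.pf_BMP
    Pool.Agent.H27.L1.H34.GM.pf_PWN Pool.Agent.H27.L1.H34.GM.pf_PWC
    Pool.Agent.H27.L1.H34.GZ.g_HAR Pool.Agent.H27.L1.H34.GZ.g_HAC
    Pool.Agent.H27.L1.H34.GZ.a_RTI Pool.Agent.H27.L1.H34.GZ.a_VLM Pool.Agent.H27.L1.H34.GU.b_ALU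
    Pool.Agent.H27.L1.H34.GZ.g_MSR

/-- the representatives of the Hecke operators exist -/
theorem c_EXT : Pool.Agent.H27.L1.H34.GZ.T_EXT := Pool.Agent.H27.L1.H34.GZ.a_EXT

/-- the fundamental domain exists -/
theorem c_EXD : Pool.Agent.H27.L1.H34.GZ.T_EXD :=
  Pool.Agent.H27.L1.H43.GZ.pf_EXD Pool.Agent.H27.L1.H34.GZ.g_MSR

end Pool.Agent.H27.L1.H55
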