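import Pool.Agent.H27.L1.H55.CMP
import Pool.Agent.H27.L1.H52.GHK.HKC
import Pool.Agent.H27.L1.H47.GHK.WYE
import Pool.Agent.H27.L1.H34.GHK.FIN
import Pool.Agent.H27.L1.H23.GHK.LSK
import Pool.Agent.H27.L1.H85.GHK.QBD
import Pool.Agent.H27.L1.H80.GHK.RRT
import Pool.Agent.H27.L1.H88.GHK.TRF
import Pool.Agent.H27.L1.H90.GHK.ORS

/-!
Board ghk with level one: everything composed, no hypotheses.
-/

set_option autoImplicit false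

namespace Pool.Agent.H27.L1.H55.GHK

open Pool.Agent.H27.L1.H34.GZ Pool.Agent.H27.L1.H34.GU Pool.Agent.H27.L1.H68.GHK
open Pool.Agent.H27.L1.H23.GA.All Pool.Agent.H27.L1.H23.GHY.All

theorem c_RRT : Pool.Agent.H27.L1.H68.GHK.T_RRT :=
  Pool.Agent.H27.L1.H80.GHK.pf_RRT c_UBD g_MSR a_VLM

theorem c_QBD : Pool.Agent.H27.L1.H68.GHK.T_QBD :=
  Pool.Agent.H27.L1.H85.GHK.pf_QBD Pool.Agent.H27.L1.H52.GHK.c_IPT c_RRT c_BIA c_TBA g_HAR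

theorem c_TRF : Pool.Agent.H27.L1.H68.GHK.T_TRF :=
  Pool.Agent.H27.L1.H88.GHK.pf_TRF a_VLM a_RTI b_ALU g_MSR

/-- the sieve inequality for forms which generate orthogonal spaces -/
theorem c_LSK : Pool.Agent.H27.L1.H68.GHK.T_LSK :=
  Pool.Agent.H27.L1.H23.GHK.pf_LSK g_MSR g_HAR a_VLM c_BIA c_KCD c_KMD c_OCD a_DYM c_MSD c_TRF
    Pool.Agent.H27.L1.H52.GHK.c_IPT c_QBD

/-- the hybrid fourth moment with the weights `1 / Hn` -/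
theorem c_GBH : Pool.Agent.H27.L1.H68.GHK.T_GBH :=
  Pool.Agent.H27.L1.H34.GHK.pf_GBH Pool.Agent.H27.L1.H34.GM.pf_PRF c_ENA
    Pool.Agent.H27.L1.H34.GZZ.c_HYZ c_ENG c_TBS c_GAL c_SQD c_LSK

/-- orthogonal spherical forms generate orthogonal spaces -/
theorem c_ORS : Pool.Agent.H27.L1.H68.GHK.T_ORS :=
  Pool.Agent.H27.L1.H90.GHK.pf_ORS Pool.Agent.H27.L1.H52.GHK.c_IPT g_HAR g_HAC g_PWC a_VLM

end Pool.Agent.H27.L1.H55.GHK
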