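import Pool.Agent.H27.L1.H55.LCM
import Pool.Agent.H27.L1.H23.GU.SGVF
import Pool.Agent.H27.L1.H34.GA.Targets1

/-!
Level one: a decaying cusp form of level one on `GL_m`, `m ≥ 2`, has integral zero over the
fundamental domain (row INT0).
-/

namespace Pool.Agent.H27.L1.H55

open MeasureTheory Filter Topology Pool.Agent.H27.L1.H34.GM Pool.Agent.H27.L1.H34.GZ
open Pool.Agent.H27.L1.H34.GU Pool.Agent.H27.L1.H34.GA Pool.Agent.H27.L1.H23.GU

variable {m : ℕ}

/-- matrices with only the first column different from zero -/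
def P1 (α : ZM m) : Prop := α ≠ 0 ∧ ∀ i j : Fin m, 0 < (j : ℕ) → α i j = 0

/-- the matrix with first column `v` -/
def c0 (v : Fin m → ℤ) : ZM m := fun i j => if (j : ℕ) = 0 then v i else 0

/-- normalised inverse -/
noncomputable def Az (z : V m) : Mat m := aN (mt z) • (mt z)⁻¹

/-- test functions -/
noncomputable def Pn (n : ℕ) (w : Mat m) : ℂ := ((max 0 ((n : ℝ) + 1 - sz w) : ℝ) : ℂ)

theorem sz_cont : Continuous fun z : Mat m => sz z := by
  unfold sz
  exact (continuous_pi fun i => continuous_pi fun j => continuous_id.matrix_elem i j).norm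

theorem Pn_dg (n : ℕ) : Dg m (Pn (m := m) n) := by
  constructor
  · unfold Pn
    exact Complex.continuous_ofReal.comp
      (continuous_const.max (continuous_const.sub sz_cont))
  · intro N
    refine ⟨((n : ℝ) + 1) * ((n : ℝ) + 2) ^ N, by positivity, fun z => ?_⟩
    have hs : 0 ≤ sz z := norm_nonneg _
    have h0 : 0 ≤ max 0 ((n : ℝ) + 1 - sz z) := le_max_left _ _
    have h1 : ‖Pn n z‖ = max 0 ((n : ℝ) + 1 - sz z) := by
      unfold Pn
      rw [Complex.norm_real, Real.norm_eq_abs, abs_of_nonneg h0]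
    rw [h1, Real.rpow_neg (by linarith), Real.rpow_natCast]
    by_cases h : (n : ℝ) + 1 ≤ sz z
    · rw [max_eq_left (by linarith)]
      positivity
    · push Not at h
      rw [max_eq_right (by linarith)]
      have h2 : (1 + sz z) ^ N ≤ ((n : ℝ) + 2) ^ N := pow_le_pow_left₀ (by linarith) (by linarith) N
      have h3 : 0 < (1 + sz z) ^ N := by positivity
      calc (n : ℝ) + 1 - sz z ≤ (n : ℝ) + 1 := by linarith
        _ = ((n : ℝ) + 1) * ((1 + sz z) ^ N * ((1 + sz z) ^ N)⁻¹) := by
            rw [mul_inv_cancel₀ h3.ne', mul_one]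
        _ ≤ ((n : ℝ) + 1) * (((n : ℝ) + 2) ^ N * ((1 + sz z) ^ N)⁻¹) := by gcongr
        _ = _ := by ring

theorem Pn_ge {n : ℕ} {w : Mat m} (h : sz w ≤ n) : 1 ≤ ‖Pn n w‖ := by
  have h0 : 0 ≤ max 0 ((n : ℝ) + 1 - sz w) := le_max_left _ _
  unfold Pn
  rw [Complex.norm_real, Real.norm_eq_abs, abs_of_nonneg h0]
  exact le_trans (by linarith) (le_max_right _ _)

theorem P1_det (hm : 2 ≤ m) {α : ZM m} (h : P1 α) : α.det = 0 :=
  Matrix.det_eq_zero_of_column_eq_zero (⟨1, by omega⟩ : Fin m)
    fun i => h.2 i _ (by show 0 < 1; norm_num)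

theorem P1_of {c : ZM m} (hc : IsUnit c) {α : ZM m} (h : P1 α) : P1 (c * α) := by
  refine ⟨fun h0 => h.1 (hc.mul_right_eq_zero.1 h0), fun i j hj => ?_⟩
  rw [Matrix.mul_apply]
  exact Finset.sum_eq_zero fun l _ => by rw [h.2 l j hj, mul_zero]

theorem P1_unit {c : ZM m} (hc : IsUnit c) (α : ZM m) : P1 (c * α) ↔ P1 α := by
  refine ⟨fun h => ?_, P1_of hc⟩
  obtain ⟨u, rfl⟩ := hc
  have h1 := P1_of (u⁻¹).isUnit h
  rwa [← mul_assoc, Units.inv_mul, one_mul] at h1

theorem c0_inj (hm : 1 ≤ m) : Function.Injective (c0 (m := m)) := by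
  intro v w h
  funext i
  have h1 := congrFun (congrFun h i) ⟨0, by omega⟩
  simpa [c0] using h1

theorem Az_det (hm : 1 ≤ m) {z : V m} (hz : (mt z).det ≠ 0) : |(Az z).det| = 1 := by
  unfold Az
  have h1 : aN (mt z) ^ m = |(mt z).det| := by
    unfold aN
    rw [← Real.rpow_natCast, ← Real.rpow_mul (abs_nonneg _), one_div,
      inv_mul_cancel₀ (by positivity), Real.rpow_one]
  rw [Matrix.det_smul, Fintype.card_fin, Matrix.det_nonsing_inv, Ring.inverse_eq_inv', h1, abs_mul,
    abs_abs, abs_inv, mul_inv_cancel₀ (abs_pos.2 hz).ne']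

theorem kk_Az (z : V m) (α : Mat m) : kk 1 (mt z) α 1 = Az z * α := by
  unfold kk Az
  have : aN (1 : Mat m) = 1 := by
    unfold aN
    rw [Matrix.det_one, abs_one, Real.one_rpow]
  rw [this, inv_one, one_mul, div_one, Matrix.mul_one, Matrix.smul_mul]

theorem sz_c0 (hm : 1 ≤ m) (A : Mat m) (v : Fin m → ℤ) {t : ℝ} (ht : 0 ≤ t) :
    sz (A * cR (c0 v)) ≤ t ↔ v ∈ Sn A t := by
  have h1 : ∀ i j : Fin m, (A * cR (c0 v)) i j =
      if (j : ℕ) = 0 then A.mulVec (fun l => (v l : ℝ)) i else 0 := by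
    intro i j
    rw [Matrix.mul_apply]
    by_cases hj : (j : ℕ) = 0
    · rw [if_pos hj]
      show _ = ∑ l, A i l * (v l : ℝ)
      refine Finset.sum_congr rfl fun l _ => ?_
      simp [cR, c0, hj]
    · rw [if_neg hj]
      refine Finset.sum_eq_zero fun l _ => ?_
      simp [cR, c0, hj]
  unfold sz
  rw [pi_norm_le_iff_of_nonneg ht]
  constructor
  · intro h i
    have h2 := (pi_norm_le_iff_of_nonneg ht).1 (h i) ⟨0, by omega⟩
    rw [h1, if_pos rfl, Real.norm_eq_abs] at h2
    exact h2
  · intro h i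
    rw [pi_norm_le_iff_of_nonneg ht]
    intro j
    rw [h1, Real.norm_eq_abs]
    split_ifs
    · exact h i
    · rw [abs_zero]
      exact ht

theorem sset (hm : 1 ≤ m) {z : V m} (hz : (mt z).det ≠ 0) (n : ℕ) :
    ∃ s : Finset (ZM m), (∀ α, α ∈ s ↔ P1 α ∧ sz (kk 1 (mt z) (cR α) 1) ≤ n) ∧
      (s.card : ℝ) + 1 = (Sn (Az z) n).ncard := by
  classical
  have hA : (Az z).det ≠ 0 := by
    intro h
    have := Az_det hm hz
    rw [h, abs_zero] at this
    exact zero_ne_one this
  set S := (Sn_fin hA (n : ℝ)).toFinset with hS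
  have h0 : (0 : Fin m → ℤ) ∈ S := by
    rw [hS, Set.Finite.mem_toFinset]
    intro i
    have : (fun j : Fin m => (((0 : Fin m → ℤ) j : ℤ) : ℝ)) = 0 := by
      funext j
      simp
    rw [this, Matrix.mulVec_zero]
    simp
  refine ⟨(S.erase 0).image c0, fun α => ?_, ?_⟩
  · rw [Finset.mem_image]
    constructor
    · rintro ⟨v, hv, rfl⟩
      rw [Finset.mem_erase, hS, Set.Finite.mem_toFinset] at hv
      refine ⟨⟨fun h => hv.1 (c0_inj hm ?_), fun i j hj => ?_⟩, ?_⟩
      · rw [h]
        ext i j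
        simp [c0]
      · unfold c0
        rw [if_neg (by omega)]
      · rw [kk_Az]
        exact (sz_c0 hm _ _ (Nat.cast_nonneg n)).2 hv.2
    · rintro ⟨h1, h2⟩
      have h3 : c0 (fun i => α i ⟨0, by omega⟩) = α := by
        ext i j
        unfold c0
        by_cases hj : (j : ℕ) = 0
        · rw [if_pos hj]
          have h4 : j = ⟨0, by omega⟩ := Fin.ext hj
          rw [h4]
        · rw [if_neg hj, h1.2 i j (by omega)]
      refine ⟨fun i => α i ⟨0, by omega⟩, ?_, h3⟩
      rw [Finset.mem_erase, hS, Set.Finite.mem_toFinset]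
      constructor
      · intro h
        apply h1.1
        rw [← h3, h]
        ext i j
        simp [c0]
      · rw [kk_Az, ← h3] at h2
        exact (sz_c0 hm _ _ (Nat.cast_nonneg n)).1 h2
  · rw [Finset.card_image_of_injective _ (c0_inj hm), Set.ncard_eq_toFinset_card _ (Sn_fin hA _),
      ← hS, ← Finset.card_erase_add_one h0]
    push_cast
    ring

theorem tsum_ind {ι R : Type*} [NonAssocSemiring R] [TopologicalSpace R] [T2Space R]
    (P : ι → Prop) [DecidablePred P] (s : Finset ι) (hs : ∀ a, a ∈ s ↔ P a) :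
    ∑' a, (if P a then (1 : R) else 0) = s.card := by
  rw [tsum_eq_sum (s := s) fun a ha => if_neg fun h => ha ((hs a).2 h),
    Finset.sum_congr rfl fun a ha => if_pos ((hs a).1 ha)]
  simp

open Classical in
/-- a decaying cusp form of level one has integral zero -/
theorem int0 (hS : T_SNU) (hAC : T_ACA) (hm2 : 2 ≤ m) (T : ℕ → Finset (ZM m)) (D : Set (V m))
    (hsys : SysZ m 1 T D) (F : Mat m → VN m 1 → ℂ) (lam : ℕ → ℂ) (hF : CusB m 1 T F lam)
    (hdc0 : Dcy F) (x : VN m 1) :
    IntegrableOn (fun z : V m => F (mt z) x) D (hm m) ∧ ∫ z in D, F (mt z) x ∂(hm m) = 0 := by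
  have hm1 := hsys.one_le
  have hD := hsys.dom
  have hx : ∀ α : ZM m, ac 1 α x = x := fun α => by
    funext i
    exact Subsingleton.elim _ _
  have hab : ∀ n : ℕ, ∫⁻ z in D, ∑' α : ZM m, ENNReal.ofReal
      ‖Pn n (kk 1 (mt z) (cR α) 1) * F (mt z) x‖ ∂(hm m) < ⊤ := by
    intro n
    have h := hAC m 1 T D hsys F lam hF.toHecA (Pn n) (Pn_dg n) (Or.inl hdc0) 1 1 x
      (by rw [Matrix.det_one]; exact one_ne_zero) one_pos
    simpa only [hx] using h
  have hdc : Continuous fun z : V m => mt z := by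
    refine continuous_matrix fun i j => ?_
    show Continuous fun z : V m => z i j
    fun_prop
  have hopen : MeasurableSet {z : V m | (mt z).det ≠ 0} :=
    (isOpen_ne_fun det_cont continuous_const).measurableSet
  have hdet : ∀ z ∈ D, (mt z).det ≠ 0 := fun z hz => shell_det hm1 (hD.shell z hz)
  set f : V m → ℂ := {z : V m | (mt z).det ≠ 0}.piecewise (fun z => F (mt z) x) (fun _ => 0) with hf
  have hfm : Measurable f := by
    refine ContinuousOn.measurable_piecewise ?_ continuousOn_const hopen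
    exact (hF.cont x).comp hdc.continuousOn (fun z hz => hz)
  have hfD : ∀ z, (mt z).det ≠ 0 → f z = F (mt z) x := fun z hz =>
    Set.piecewise_eq_of_mem _ _ _ (show z ∈ {z : V m | (mt z).det ≠ 0} from hz)
  have hkm : ∀ α : ZM m, Measurable fun z : V m => sz (kk 1 (mt z) (cR α) 1) := fun α =>
    (measurable_norm).comp (kk_meas 1 (cR α) 1)
  have hset : ∀ (α : ZM m) (n : ℕ), MeasurableSet {z : V m | sz (kk 1 (mt z) (cR α) 1) ≤ n} :=
    fun α n => measurableSet_le (hkm α) measurable_const
  set G : ℕ → ZM m → V m → ℂ := fun n α z => if (mt z).det = 0 ∨ ¬ P1 α then 0 else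
    (if sz (kk 1 (mt z) (cR α) 1) ≤ n then 1 else 0) * F (mt z) x with hG
  have hmeas : ∀ n α, Measurable (G n α) := by
    intro n α
    by_cases hα : P1 α
    · have h1 : G n α = fun z => (if sz (kk 1 (mt z) (cR α) 1) ≤ n then (1 : ℂ) else 0) * f z := by
        funext z
        simp only [hG]
        by_cases hz : (mt z).det = 0
        · rw [if_pos (Or.inl hz), hf, Set.piecewise_eq_of_notMem _ _ _ (by simpa using hz), mul_zero]
        · rw [if_neg (by simp only [not_or, not_not]; exact ⟨hz, hα⟩), hfD z hz]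
      rw [h1]
      exact (Measurable.ite (hset α n) measurable_const measurable_const).mul hfm
    · have : G n α = fun _ => 0 := by
        funext z
        simp only [hG]
        rw [if_pos (Or.inr hα)]
      rw [this]
      exact measurable_const
  -- the integral of each sum is zero
  have hzero : ∀ n, ∫ z in D, ∑' α : ZM m, G n α z ∂(hm m) = 0 := by
    intro n
    refine hS m 1 D hm1 le_rfl hD (G n) (hmeas n) ?_ ?_ ?_ ?_ ?_
    · intro c α z hc hz
      show (if (mt (lm (cR c) z)).det = 0 ∨ ¬ P1 (c * α) then 0 else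
        (if sz (kk 1 (mt (lm (cR c) z)) (cR (c * α)) 1) ≤ n then (1 : ℂ) else 0) *
          F (mt (lm (cR c) z)) x) =
        if (mt z).det = 0 ∨ ¬ P1 α then 0 else
        (if sz (kk 1 (mt z) (cR α) 1) ≤ n then (1 : ℂ) else 0) * F (mt z) x
      have h1 : (mt (lm (cR c) z)).det ≠ 0 := det_lmU hc hz
      by_cases hα : P1 α
      · rw [if_neg (show ¬ ((mt (lm (cR c) z)).det = 0 ∨ ¬ P1 (c * α)) from fun h =>
            h.elim h1 fun h => h ((P1_unit hc α).2 hα)),
          if_neg (show ¬ ((mt z).det = 0 ∨ ¬ P1 α) from fun h => h.elim hz fun h => h hα),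
          mt_lm, kk_unit hc]
        congr 1
        have h5 := hF.auto c hc (mt z) x hz
        rwa [hx] at h5
      · rw [if_pos (Or.inr fun h => hα ((P1_unit hc α).1 h)), if_pos (Or.inr hα)]
    · intro α z hα
      simp only [hG]
      rw [if_pos (Or.inr fun h => hα (P1_det hm2 h))]
    · intro z
      simp only [hG]
      rw [if_pos (Or.inr fun h => h.1 rfl)]
    · refine lt_of_le_of_lt (lintegral_mono fun z => ENNReal.tsum_le_tsum fun α => ?_) (hab n)
      refine ENNReal.ofReal_le_ofReal ?_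
      simp only [hG]
      split_ifs with h1 h2
      · rw [norm_zero]
        exact norm_nonneg _
      · rw [norm_mul, norm_mul, norm_one]
        exact mul_le_mul_of_nonneg_right (Pn_ge h2) (norm_nonneg _)
      · rw [zero_mul, norm_zero]
        exact norm_nonneg _
    · intro k hk0 hkm β hβ z hz
      by_cases hd : P1 β
      · have h1 : ∀ u : V m, G n β (fun i j => ((1 + ((1 : ℕ) : ℝ) • nk k u) * mt z) i j) =
            (if sz (kk 1 (mt z) (cR β) 1) ≤ n then (1 : ℂ) else 0) *
              F ((1 + ((1 : ℕ) : ℝ) • nk k u) * mt z) x := by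
          intro u
          show (if (mt (lm (1 + ((1 : ℕ) : ℝ) • nk k u) z)).det = 0 ∨ ¬ P1 β then 0 else
            (if sz (kk 1 (mt (lm (1 + ((1 : ℕ) : ℝ) • nk k u) z)) (cR β) 1) ≤ n then (1 : ℂ) else 0) *
              F (mt (lm (1 + ((1 : ℕ) : ℝ) • nk k u) z)) x) = _
          rw [if_neg, mt_lm]
          · rw [Pu1_smul, kk_Pu1 hβ]
          · rw [Pu1_smul]
            simp only [not_or, not_not]
            exact ⟨det_lmP k _ hz, hd⟩
        simp only [h1]
        rw [integral_const_mul, hF.cusp k hk0 hkm (mt z) x hz, mul_zero]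
      · have h1 : ∀ u : V m, G n β (fun i j => ((1 + ((1 : ℕ) : ℝ) • nk k u) * mt z) i j) = 0 := by
          intro u
          simp only [hG]
          rw [if_pos (Or.inr hd)]
        simp only [h1, integral_zero]
  -- the counting functions
  set E : ℕ → V m → ENNReal := fun n z => ∑' α : ZM m,
    if P1 α ∧ sz (kk 1 (mt z) (cR α) 1) ≤ n then 1 else 0 with hE
  have hEm : ∀ n, Measurable (E n) := by
    intro n
    have : Countable (ZM m) := inferInstanceAs (Countable (Fin m → Fin m → ℤ))
    refine Measurable.ennreal_tsum fun α => ?_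
    by_cases hα : P1 α
    · simp only [hα, true_and]
      exact Measurable.ite (hset α n) measurable_const measurable_const
    · simp only [hα, false_and, if_false]
      exact measurable_const
  have hE1 : ∀ n z, (mt z).det ≠ 0 → (E n z).toReal + 1 = (Sn (Az z) n).ncard := by
    intro n z hz
    obtain ⟨s, hs, hc⟩ := sset hm1 hz n
    have h1 : E n z = (s.card : ENNReal) := tsum_ind _ s hs
    rw [h1, ENNReal.toReal_natCast, hc]
  have hE2 : ∀ n z, (mt z).det ≠ 0 → ∑' α : ZM m, G n α z = ((E n z).toReal : ℂ) * f z := by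
    intro n z hz
    obtain ⟨s, hs, hc⟩ := sset hm1 hz n
    have h1 : E n z = (s.card : ENNReal) := tsum_ind _ s hs
    have h2 : ∀ α : ZM m, G n α z =
        (if P1 α ∧ sz (kk 1 (mt z) (cR α) 1) ≤ n then (1 : ℂ) else 0) * f z := by
      intro α
      simp only [hG]
      rw [hfD z hz]
      by_cases hα : P1 α
      · rw [if_neg (by simp only [not_or, not_not]; exact ⟨hz, hα⟩)]
        simp only [hα, true_and]
      · rw [if_pos (Or.inr hα), if_neg fun h => hα h.1, zero_mul]
    simp only [h2]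
    rw [tsum_mul_right, tsum_ind _ s hs, h1, ENNReal.toReal_natCast]
    push_cast
    rfl
  -- the majorant
  have hb : IntegrableOn (fun z => ((E 1 z).toReal + 1) * ‖f z‖) D (hm m) := by
    refine ⟨(((hEm 1).ennreal_toReal.add measurable_const).mul hfm.norm).aestronglyMeasurable, ?_⟩
    refine lt_of_le_of_lt ?_ (hab 1)
    refine setLIntegral_mono' hD.meas fun z hz => ?_
    have hz' := hdet z hz
    obtain ⟨s, hs, hc⟩ := sset hm1 hz' 1
    have h1 : E 1 z = (s.card : ENNReal) := tsum_ind _ s hs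
    have h00 : (0 : ZM m) ∉ s := fun h => ((hs 0).1 h).1.1 rfl
    show ‖((E 1 z).toReal + 1) * ‖f z‖‖ₑ ≤ _
    rw [hfD z hz', h1, ENNReal.toReal_natCast]
    have h2 : ‖((s.card : ℝ) + 1) * ‖F (mt z) x‖‖ₑ =
        ∑ α ∈ insert 0 s, ENNReal.ofReal ‖F (mt z) x‖ := by
      rw [Finset.sum_const, Finset.card_insert_of_notMem h00, nsmul_eq_mul, ← ofReal_norm,
        Real.norm_of_nonneg (by positivity), ENNReal.ofReal_mul (by positivity)]
      congr 1
      have : ((s.card : ℝ) + 1) = ((s.card + 1 : ℕ) : ℝ) := by push_cast; ring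
      rw [this, ENNReal.ofReal_natCast]
    rw [h2]
    refine le_trans (Finset.sum_le_sum fun α hα => ?_) (ENNReal.sum_le_tsum (insert 0 s))
    refine ENNReal.ofReal_le_ofReal ?_
    rw [norm_mul]
    have h3 : sz (kk 1 (mt z) (cR α) 1) ≤ ((1 : ℕ) : ℝ) := by
      rcases Finset.mem_insert.1 hα with rfl | h
      · rw [kk_Az]
        have : (Az z * cR (0 : ZM m) : Mat m) = 0 := by
          have h5 : cR (0 : ZM m) = 0 := by
            ext i j
            simp [cR]
          rw [h5, Matrix.mul_zero]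
        rw [this]
        have h6 : sz (0 : Mat m) = 0 := by
          unfold sz
          have : (fun i j => (0 : Mat m) i j : V m) = 0 := rfl
          rw [this, norm_zero]
        rw [h6]
        norm_num
      · exact ((hs α).1 h).2
    calc ‖F (mt z) x‖ = 1 * ‖F (mt z) x‖ := (one_mul _).symm
      _ ≤ _ := mul_le_mul_of_nonneg_right (Pn_ge h3) (norm_nonneg _)
  have hfi : IntegrableOn f D (hm m) := by
    refine Integrable.mono' hb hfm.aestronglyMeasurable (ae_of_all _ fun z => ?_)
    have : 0 ≤ (E 1 z).toReal := ENNReal.toReal_nonneg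
    nlinarith [norm_nonneg (f z)]
  have hfF : ∀ z ∈ D, f z = F (mt z) x := fun z hz => hfD z (hdet z hz)
  refine ⟨hfi.congr_fun hfF hD.meas, ?_⟩
  rw [← setIntegral_congr_fun hD.meas hfF]
  -- dominated convergence
  have hlim : Tendsto (fun n : ℕ => ∫ z in D, (((E n z).toReal / (n : ℝ) ^ m : ℝ) : ℂ) * f z ∂(hm m))
      atTop (𝓝 (∫ z in D, (((2 : ℝ) ^ m : ℝ) : ℂ) * f z ∂(hm m))) := by
    refine tendsto_integral_filter_of_dominated_convergence
      (fun z => 3 ^ m * (((E 1 z).toReal + 1) * ‖f z‖)) ?_ ?_ (hb.const_mul _) ?_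
    · refine Eventually.of_forall fun n => Measurable.aestronglyMeasurable ?_
      exact (Complex.measurable_ofReal.comp ((hEm n).ennreal_toReal.div_const _)).mul hfm
    · filter_upwards [eventually_ge_atTop 1] with n hn
      refine (ae_restrict_iff' hD.meas).2 (ae_of_all _ fun z hz => ?_)
      have hz' := hdet z hz
      have hA : (Az z).det ≠ 0 := by
        intro h
        have := Az_det hm1 hz'
        rw [h, abs_zero] at this
        exact zero_ne_one this
      have h1 := Sn_card hA hn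
      have hn' : (0 : ℝ) < (n : ℝ) ^ m := by
        have : (0 : ℝ) < n := by exact_mod_cast hn
        positivity
      have h2 := hE1 n z hz'
      have h3 := hE1 1 z hz'
      rw [Nat.cast_one] at h3
      rw [norm_mul, Complex.norm_real, Real.norm_of_nonneg (by positivity), ← mul_assoc]
      refine mul_le_mul_of_nonneg_right ?_ (norm_nonneg _)
      rw [div_le_iff₀ hn', h3]
      nlinarith
    · refine (ae_restrict_iff' hD.meas).2 (ae_of_all _ fun z hz => ?_)
      have hz' := hdet z hz
      refine Tendsto.mul_const _ ((Complex.continuous_ofReal.tendsto _).comp ?_)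
      have h1 := Sn_lim (Az_det hm1 hz')
      have h2 : Tendsto (fun n : ℕ => (1 : ℝ) / (n : ℝ) ^ m) atTop (𝓝 0) := by
        have h3 : Tendsto (fun n : ℕ => (n : ℝ) ^ m) atTop atTop :=
          (tendsto_pow_atTop (by omega)).comp tendsto_natCast_atTop_atTop
        have h4 : (fun n : ℕ => (1 : ℝ) / (n : ℝ) ^ m) = (fun r : ℝ => r⁻¹) ∘
            (fun n : ℕ => (n : ℝ) ^ m) := by
          funext n
          simp
        rw [h4]
        exact tendsto_inv_atTop_zero.comp h3
      have h3 := h1.sub h2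
      rw [sub_zero] at h3
      refine h3.congr fun n => ?_
      rw [← hE1 n z hz']
      ring
  have hz0 : ∀ n : ℕ, ∫ z in D, (((E n z).toReal / (n : ℝ) ^ m : ℝ) : ℂ) * f z ∂(hm m) = 0 := by
    intro n
    have h1 : ∫ z in D, (((E n z).toReal / (n : ℝ) ^ m : ℝ) : ℂ) * f z ∂(hm m) =
        ∫ z in D, (((n : ℂ) ^ m)⁻¹ * ∑' α : ZM m, G n α z) ∂(hm m) := by
      refine setIntegral_congr_fun hD.meas fun z hz => ?_
      show (((E n z).toReal / (n : ℝ) ^ m : ℝ) : ℂ) * f z = ((n : ℂ) ^ m)⁻¹ * ∑' α : ZM m, G n α z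
      rw [hE2 n z (hdet z hz)]
      push_cast
      ring
    rw [h1, integral_const_mul, hzero n, mul_zero]
  simp only [hz0] at hlim
  have h5 := tendsto_nhds_unique hlim tendsto_const_nhds
  rw [integral_const_mul] at h5
  refine (mul_eq_zero.1 h5).resolve_left ?_
  exact Complex.ofReal_ne_zero.2 (by positivity)

end Pool.Agent.H27.L1.H55
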