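import Pool.Agent.H27.L1.H23.GA.SGA
import Pool.Agent.H27.L1.H55.INT0

/-!
Level one: row INZ, the integral of a cusp form of level one over the fundamental domain vanishes.
-/

namespace Pool.Agent.H27.L1.H55

open MeasureTheory Pool.Agent.H27.L1.H34.GM Pool.Agent.H27.L1.H34.GZ
open Pool.Agent.H27.L1.H34.GU Pool.Agent.H27.L1.H34.GA Pool.Agent.H27.L1.H23.GU

theorem pf_INZ : T_ACA → Pool.Agent.H27.L1.H23.GA.T_INZ := by
  intro hAC m N _ T D hsys hN F lam hF hdc x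
  subst hN
  have hm2 : 2 ≤ m := hsys.nt.resolve_left (by norm_num)
  exact int0 (pf_SNU Pool.Agent.H27.L1.H75.GU.pf_SNA pf_SNW
    (Pool.Agent.H27.L1.H85.GZ.pf_UNZ Pool.Agent.H27.L1.H44.GMF.pf_HAR)
    Pool.Agent.H27.L1.H44.GMF.pf_HAR) hAC hm2 T D hsys F lam hF hdc x

theorem c_SGA : T_ACA → T_SGA := fun h => Pool.Agent.H27.L1.H23.GA.pf_SGA h (pf_INZ h)

end Pool.Agent.H27.L1.H55
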