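import Mathlib

/-!
Counting the integer vectors in a large parallelotope (level one, row INT0).
-/

namespace Pool.Agent.H27.L1.H55

open MeasureTheory Filter Topology Pointwise

variable {m : ℕ}

/-- the integer vectors `v` with all coordinates of `A v` at most `t` -/
def Sn (A : Matrix (Fin m) (Fin m) ℝ) (t : ℝ) : Set (Fin m → ℤ) :=
  {v | ∀ i, |A.mulVec (fun j => (v j : ℝ)) i| ≤ t}

theorem Sn_fin {A : Matrix (Fin m) (Fin m) ℝ} (hA : A.det ≠ 0) (t : ℝ) : (Sn A t).Finite := by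
  have hU : IsUnit A.det := isUnit_iff_ne_zero.2 hA
  obtain ⟨K, hK⟩ : ∃ K : ℕ, ∀ j : Fin m, ∑ i, |A⁻¹ j i| * t ≤ K := by
    obtain ⟨K, hK⟩ := exists_nat_ge (∑ j : Fin m, |∑ i, |A⁻¹ j i| * t|)
    refine ⟨K, fun j => ?_⟩
    calc ∑ i, |A⁻¹ j i| * t ≤ |∑ i, |A⁻¹ j i| * t| := le_abs_self _
      _ ≤ ∑ j : Fin m, |∑ i, |A⁻¹ j i| * t| :=
        Finset.single_le_sum (f := fun j => |∑ i, |A⁻¹ j i| * t|) (fun j _ => abs_nonneg _)
          (Finset.mem_univ j)
      _ ≤ K := hK
  refine (Set.finite_Icc (fun _ : Fin m => -(K : ℤ)) (fun _ => (K : ℤ))).subset fun v hv => ?_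
  have key : ∀ j, |(v j : ℝ)| ≤ K := by
    intro j
    have h2 : A⁻¹.mulVec (A.mulVec (fun j => (v j : ℝ))) = fun j => (v j : ℝ) := by
      rw [Matrix.mulVec_mulVec, Matrix.nonsing_inv_mul A hU, Matrix.one_mulVec]
    have h1 : (v j : ℝ) = ∑ i, A⁻¹ j i * A.mulVec (fun j => (v j : ℝ)) i := (congrFun h2 j).symm
    rw [h1]
    calc |∑ i, A⁻¹ j i * A.mulVec (fun j => (v j : ℝ)) i|
        ≤ ∑ i, |A⁻¹ j i * A.mulVec (fun j => (v j : ℝ)) i| := Finset.abs_sum_le_sum_abs _ _
      _ ≤ ∑ i, |A⁻¹ j i| * t := Finset.sum_le_sum fun i _ => by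
          rw [abs_mul]
          exact mul_le_mul_of_nonneg_left (hv i) (abs_nonneg _)
      _ ≤ K := hK j
  constructor
  · intro j
    have := (abs_le.1 (key j)).1
    show -(K : ℤ) ≤ v j
    exact_mod_cast this
  · intro j
    have := (abs_le.1 (key j)).2
    show v j ≤ (K : ℤ)
    exact_mod_cast this

theorem Sn_card {A : Matrix (Fin m) (Fin m) ℝ} (hA : A.det ≠ 0) {n : ℕ} (hn : 1 ≤ n) :
    ((Sn A n).ncard : ℝ) ≤ 3 ^ m * (n : ℝ) ^ m * (Sn A 1).ncard := by
  classical
  set S := (Sn_fin hA (n : ℝ)).toFinset with hS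
  set S1 := (Sn_fin hA 1).toFinset with hS1
  let f : (Fin m → ℤ) → (Fin m → ℤ) := fun v i => ⌊A.mulVec (fun j => (v j : ℝ)) i⌋
  have h1 : S.card ≤ S1.card * (S.image f).card := by
    refine Finset.card_le_mul_card_image S S1.card fun a ha => ?_
    obtain ⟨v0, hv0, rfl⟩ := Finset.mem_image.1 ha
    refine Finset.card_le_card_of_injOn (fun v => v - v0) ?_ ?_
    · intro v hv
      have hv' : v ∈ S ∧ f v = f v0 := by simpa using hv
      have h5 : v - v0 ∈ Sn A 1 := by
        intro i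
        have h6 : (fun j => (((v - v0) j : ℤ) : ℝ)) =
            (fun j => (v j : ℝ)) - (fun j => (v0 j : ℝ)) := by
          funext j
          simp
        rw [h6, Matrix.mulVec_sub, Pi.sub_apply]
        have h7 : ⌊A.mulVec (fun j => (v j : ℝ)) i⌋ = ⌊A.mulVec (fun j => (v0 j : ℝ)) i⌋ :=
          congrFun hv'.2 i
        exact (Int.abs_sub_lt_one_of_floor_eq_floor h7).le
      simpa [hS1] using h5
    · intro v _ w _ h
      simpa using h
  have h2 : S.image f ⊆ Fintype.piFinset (fun _ : Fin m => Finset.Icc (-(n : ℤ)) n) := by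
    intro a ha
    obtain ⟨v, hv, rfl⟩ := Finset.mem_image.1 ha
    have hv' : v ∈ Sn A n := by simpa [hS] using hv
    rw [Fintype.mem_piFinset]
    intro i
    have h5 := abs_le.1 (hv' i)
    rw [Finset.mem_Icc]
    constructor
    · show -(n : ℤ) ≤ ⌊A.mulVec (fun j => (v j : ℝ)) i⌋
      rw [Int.le_floor]
      push_cast
      exact h5.1
    · show ⌊A.mulVec (fun j => (v j : ℝ)) i⌋ ≤ (n : ℤ)
      have h6 : (⌊A.mulVec (fun j => (v j : ℝ)) i⌋ : ℝ) ≤ n := (Int.floor_le _).trans h5.2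
      exact_mod_cast h6
  have h3 : (S.image f).card ≤ (2 * n + 1) ^ m := by
    refine (Finset.card_le_card h2).trans ?_
    rw [Fintype.card_piFinset]
    simp only [Int.card_Icc, Finset.prod_const, Finset.card_univ, Fintype.card_fin]
    have : ((n : ℤ) + 1 - -(n : ℤ)).toNat = 2 * n + 1 := by omega
    rw [this]
  have h4 : (S.card : ℝ) ≤ S1.card * (2 * n + 1) ^ m := by
    exact_mod_cast h1.trans (Nat.mul_le_mul_left _ h3)
  have hn' : (1 : ℝ) ≤ n := by exact_mod_cast hn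
  have h5 : ((2 * n + 1 : ℝ)) ^ m ≤ 3 ^ m * (n : ℝ) ^ m := by
    rw [← mul_pow]
    exact pow_le_pow_left₀ (by positivity) (by linarith) m
  rw [Set.ncard_eq_toFinset_card _ (Sn_fin hA (n : ℝ)), Set.ncard_eq_toFinset_card _ (Sn_fin hA 1)]
  calc (S.card : ℝ) ≤ S1.card * (2 * n + 1) ^ m := h4
    _ ≤ S1.card * (3 ^ m * (n : ℝ) ^ m) := mul_le_mul_of_nonneg_left h5 (by positivity)
    _ = _ := by ring

theorem Sn_lim {A : Matrix (Fin m) (Fin m) ℝ} (hA : |A.det| = 1) :
    Tendsto (fun n : ℕ => ((Sn A n).ncard : ℝ) / (n : ℝ) ^ m) atTop (𝓝 (2 ^ m)) := by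
  have hA0 : A.det ≠ 0 := by
    intro h
    rw [h, abs_zero] at hA
    exact zero_ne_one hA
  have hU : IsUnit A.det := isUnit_iff_ne_zero.2 hA0
  set s : Set (Fin m → ℝ) := (Matrix.toLin' A) ⁻¹' Metric.closedBall 0 1 with hs
  have hmem : ∀ x : Fin m → ℝ, x ∈ s ↔ ∀ i, |A.mulVec x i| ≤ 1 := by
    intro x
    rw [hs, Set.mem_preimage, mem_closedBall_zero_iff, pi_norm_le_iff_of_nonneg zero_le_one]
    simp [Real.norm_eq_abs, Matrix.toLin'_apply]
  have hcont : Continuous (Matrix.toLin' A) := LinearMap.continuous_of_finiteDimensional _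
  have hmeas : MeasurableSet s := (Metric.isClosed_closedBall.preimage hcont).measurableSet
  have hbd : Bornology.IsBounded s := by
    have h1 : s ⊆ (Matrix.toLin' A⁻¹) '' Metric.closedBall 0 1 := by
      intro x hx
      refine ⟨Matrix.toLin' A x, hx, ?_⟩
      rw [Matrix.toLin'_apply, Matrix.toLin'_apply, Matrix.mulVec_mulVec,
        Matrix.nonsing_inv_mul A hU, Matrix.one_mulVec]
    refine Bornology.IsBounded.subset ?_ h1
    exact ((isCompact_closedBall _ _).image
      (LinearMap.continuous_of_finiteDimensional (Matrix.toLin' A⁻¹))).isBounded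
  have hconv : Convex ℝ s := (convex_closedBall _ _).linear_preimage _
  have hfr : volume (frontier s) = 0 := hconv.addHaar_frontier volume
  have hvol : volume.real s = 2 ^ m := by
    have hd : LinearMap.det (Matrix.toLin' A) = A.det := LinearMap.det_toLin' A
    have h1 : volume s = ENNReal.ofReal ((2 : ℝ) ^ m) := by
      rw [hs, Measure.addHaar_preimage_linearMap _ (by rw [hd]; exact hA0), hd, abs_inv, hA,
        Real.volume_pi_closedBall _ zero_le_one]
      simp
    rw [measureReal_def, h1, ENNReal.toReal_ofReal (by positivity)]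
  have hT := tendsto_card_div_pow_atTop_volume s hbd hmeas hfr
  rw [hvol, Fintype.card_fin] at hT
  refine hT.congr' ?_
  filter_upwards [eventually_ge_atTop 1] with n hn
  have hn0 : (n : ℝ) ≠ 0 := by
    have : 1 ≤ (n : ℝ) := by exact_mod_cast hn
    positivity
  have : NeZero n := ⟨by omega⟩
  congr 2
  have h2 : (s ∩ (n : ℝ)⁻¹ • (Submodule.span ℤ (Set.range (Pi.basisFun ℝ (Fin m))) :
      Set (Fin m → ℝ))) = (fun (v : Fin m → ℤ) (j : Fin m) => (n : ℝ)⁻¹ * (v j : ℝ)) '' Sn A n := by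
    ext x
    constructor
    · rintro ⟨hx1, hx2⟩
      rw [← Submodule.coe_pointwise_smul, SetLike.mem_coe,
        BoxIntegral.unitPartition.mem_smul_span_iff] at hx2
      choose v hv using hx2
      refine ⟨v, ?_, ?_⟩
      · intro i
        have h3 : (fun j => (v j : ℝ)) = (n : ℝ) • x := by
          funext j
          simpa using hv j
        rw [h3, Matrix.mulVec_smul, Pi.smul_apply, smul_eq_mul, abs_mul, Nat.abs_cast]
        have h4 := (hmem x).1 hx1 i
        calc (n : ℝ) * |A.mulVec x i| ≤ n * 1 := mul_le_mul_of_nonneg_left h4 (Nat.cast_nonneg n)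
          _ = n := mul_one _
      · funext j
        have h3 : (v j : ℝ) = n * x j := by simpa using hv j
        show (n : ℝ)⁻¹ * (v j : ℝ) = x j
        rw [h3, ← mul_assoc, inv_mul_cancel₀ hn0, one_mul]
    · rintro ⟨v, hv, rfl⟩
      constructor
      · rw [hmem]
        intro i
        have h3 : (fun j => (n : ℝ)⁻¹ * (v j : ℝ)) = (n : ℝ)⁻¹ • (fun j => (v j : ℝ)) := rfl
        show |A.mulVec (fun j => (n : ℝ)⁻¹ * (v j : ℝ)) i| ≤ 1
        rw [h3, Matrix.mulVec_smul, Pi.smul_apply, smul_eq_mul, abs_mul, abs_inv, Nat.abs_cast]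
        calc (n : ℝ)⁻¹ * |A.mulVec (fun j => (v j : ℝ)) i| ≤ (n : ℝ)⁻¹ * n :=
              mul_le_mul_of_nonneg_left (hv i) (by positivity)
          _ = 1 := inv_mul_cancel₀ hn0
      · rw [← Submodule.coe_pointwise_smul, SetLike.mem_coe,
          BoxIntegral.unitPartition.mem_smul_span_iff]
        intro i
        refine ⟨v i, ?_⟩
        show ((v i : ℤ) : ℝ) = n * ((n : ℝ)⁻¹ * (v i : ℝ))
        rw [← mul_assoc, mul_inv_cancel₀ hn0, one_mul]
  have h3 : Function.Injective (fun (v : Fin m → ℤ) (j : Fin m) => (n : ℝ)⁻¹ * (v j : ℝ)) := by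
    intro v w h
    funext j
    have h4 := congrFun h j
    have h5 : (n : ℝ)⁻¹ * (v j : ℝ) = (n : ℝ)⁻¹ * (w j : ℝ) := h4
    have h6 := mul_left_cancel₀ (inv_ne_zero hn0) h5
    exact_mod_cast h6
  have h4 : Nat.card ↑(s ∩ (n : ℝ)⁻¹ • (Submodule.span ℤ (Set.range (Pi.basisFun ℝ (Fin m))) :
      Set (Fin m → ℝ))) = (Sn A n).ncard := by
    rw [h2, Nat.card_coe_set_eq, Set.ncard_image_of_injective _ h3]
  exact_mod_cast h4

end Pool.Agent.H27.L1.H55
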